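import Mathlib
import Pool.Agent.H494.RyE

/-!
# Sample complexity of Rényi entropy estimation of non-integer order

Lower bound `S_α(k, δ, ε) ≥ c k^{max(1, 1/α)} / log k` for every non-integer `α > 0`, every
accuracy `δ > 0` and every error probability `ε ∈ (0, 1)`.  It matches the known upper bounds
`O(k / log k)` (`α > 1`) and `O(k^{1/α} / log k)` (`α < 1`).
-/

set_option autoImplicit false

namespace Pool.Agent.Results.MP_5d6a7c_lc.RenyiRate

open RenyiLB

/-- Every number `n` of samples that suffices for some estimator is at least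
`c k^{max(1, 1/α)} / log k`.  `Works α δ ε Ω n` says that some estimator `f : Ω^n → ℝ` satisfies
`Pr[|f(X) - H_α(p)| > δ] < ε` for all distributions `p` on `Ω`. -/
theorem result :
    ∀ α : ℝ, 0 < α → (∀ m : ℕ, α ≠ m) → ∀ δ ε : ℝ, 0 < δ → 0 < ε → ε < 1 →
      ∃ c : ℝ, 0 < c ∧ ∃ k₀ : ℕ, ∀ k : ℕ, k₀ ≤ k → ∀ (Ω : Type) [Fintype Ω],
        Fintype.card Ω = k → ∀ n : ℕ, Works α δ ε Ω n →
        c * ((k : ℝ) ^ max 1 (1 / α) / Real.log k) ≤ n := by
  intro α hα hint δ ε hδ hε0 hε1
  exact lower_bound α hα hint δ ε hδ hε0 hε1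

end Pool.Agent.Results.MP_5d6a7c_lc.RenyiRate
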